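import Mathlib

set_option autoImplicit false

/-! # Nonbacktracking walks in graphs of girth at least twelve -/

namespace Pool.Agent.L0h65.TL

open SimpleGraph

variable {V : Type}

/-- no cycles of length less than twelve -/
def G12 (G : SimpleGraph V) : Prop := ∀ (w : V) (c : G.Walk w w), c.IsCycle → 12 ≤ c.length

/-- nonbacktracking walks -/
def NB {G : SimpleGraph V} {x y : V} (p : G.Walk x y) : Prop := p.edges.IsChain (· ≠ ·)

theorem uniq {G : SimpleGraph V} (h12 : G12 G) {x y : V} (p q : G.Walk x y) (hp : NB p)
    (hl : p.length + q.length ≤ 11) :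
    p.length ≤ q.length ∧ ∀ z ∈ p.support, z ∈ q.support := by
  classical
  set H : SimpleGraph V := SimpleGraph.fromEdgeSet {e | e ∈ p.edges ∨ e ∈ q.edges} with hH
  have hHG : H ≤ G := by
    intro a b hab
    rw [hH, SimpleGraph.fromEdgeSet_adj] at hab
    obtain ⟨h1 | h1, _⟩ := hab
    · exact p.adj_of_mem_edges h1
    · exact q.adj_of_mem_edges h1
  have hac : H.IsAcyclic := by
    intro v c hc
    have hc' : (c.mapLe hHG).IsCycle := hc.mapLe hHG
    have h1 := h12 _ _ hc'
    rw [Walk.length_mapLe] at h1
    have h2 : c.edges.Nodup := hc.edges_nodup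
    have h3 : c.edges ⊆ p.edges ++ q.edges := by
      intro e he
      have h4 := c.edges_subset_edgeSet he
      rw [hH, SimpleGraph.edgeSet_fromEdgeSet] at h4
      rw [List.mem_append]
      exact h4.1
    have h4 := (h2.subperm h3).length_le
    rw [List.length_append, Walk.length_edges, Walk.length_edges, Walk.length_edges] at h4
    omega
  have hpe : ∀ e ∈ p.edges, e ∈ H.edgeSet := by
    intro e he
    rw [hH, SimpleGraph.edgeSet_fromEdgeSet]
    exact ⟨Or.inl he, G.not_isDiag_of_mem_edgeSet (p.edges_subset_edgeSet he)⟩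
  have hqe : ∀ e ∈ q.edges, e ∈ H.edgeSet := by
    intro e he
    rw [hH, SimpleGraph.edgeSet_fromEdgeSet]
    exact ⟨Or.inr he, G.not_isDiag_of_mem_edgeSet (q.edges_subset_edgeSet he)⟩
  have hp' : (p.transfer H hpe).IsPath := by
    rw [hac.isPath_iff_isChain, Walk.edges_transfer]
    exact hp
  have hq' : (q.transfer H hqe).bypass.IsPath := Walk.bypass_isPath _
  have heq : p.transfer H hpe = (q.transfer H hqe).bypass := by
    have := hac.path_unique ⟨_, hp'⟩ ⟨_, hq'⟩
    exact congrArg Subtype.val this
  constructor
  · have h1 : (p.transfer H hpe).length = p.length := Walk.length_transfer _ _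
    have h2 : (q.transfer H hqe).length = q.length := Walk.length_transfer _ _
    have h3 := (q.transfer H hqe).length_bypass_le
    rw [← heq] at h3
    omega
  · intro z hz
    have h1 : z ∈ (p.transfer H hpe).support := by rw [Walk.support_transfer]; exact hz
    rw [heq] at h1
    have h2 := (q.transfer H hqe).support_bypass_subset h1
    rwa [Walk.support_transfer] at h2

end Pool.Agent.L0h65.TL
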