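import Mathlib
import Pool.Agent.L0h65.TL.Uniq

set_option autoImplicit false

/-! # Nonbacktracking rays and sets of weak diameter at most five -/

namespace Pool.Agent.L0h65.TL

open SimpleGraph

variable {V : Type} {G : SimpleGraph V}

/-- a nonbacktracking ray -/
structure Ray (G : SimpleGraph V) (p : ℕ → V) : Prop where
  adj : ∀ i, G.Adj (p i) (p (i + 1))
  nb : ∀ i, p i ≠ p (i + 2)

/-- no nonbacktracking ray in `K` -/
def NoRay (G : SimpleGraph V) (K : Set V) : Prop := ∀ p : ℕ → V, Ray G p → (∀ i, p i ∈ K) → False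

theorem Ray.shift {p : ℕ → V} (h : Ray G p) (k : ℕ) : Ray G (fun i => p (k + i)) :=
  ⟨fun i => h.adj (k + i), fun i => h.nb (k + i)⟩

/-- building rays -/
theorem exists_ray (Q : V → V → Prop) (h1 : ∀ a x, Q a x → G.Adj a x)
    (h2 : ∀ a x, Q a x → ∃ y, y ≠ a ∧ Q x y) (a x : V) (h : Q a x) :
    ∃ p : ℕ → V, Ray G p ∧ ∀ i, Q (p i) (p (i + 1)) := by
  classical
  choose! f hf using h2
  let s : ℕ → {z : V × V // Q z.1 z.2} := fun n => Nat.rec ⟨(a, x), h⟩
    (fun _ z => ⟨(z.1.2, f z.1.1 z.1.2), (hf _ _ z.2).2⟩) n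
  have hs : ∀ n, (s (n + 1)).1 = ((s n).1.2, f (s n).1.1 (s n).1.2) := fun n => rfl
  have hq : ∀ i, Q (s i).1.1 (s (i + 1)).1.1 := by
    intro i
    rw [hs i]
    exact (s i).2
  refine ⟨fun n => (s n).1.1, ⟨fun i => h1 _ _ (hq i), fun i => ?_⟩, hq⟩
  have e1 : (s (i + 2)).1.1 = f (s i).1.1 (s i).1.2 := by
    rw [hs (i + 1), hs i]
  rw [e1]
  exact ((hf _ _ (s i).2).1).symm

/-- a section of a ray -/
def seg {p : ℕ → V} (hp : ∀ i, G.Adj (p i) (p (i + 1))) (i : ℕ) : (k : ℕ) → G.Walk (p i) (p (i + k))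
  | 0 => Walk.nil
  | k + 1 => (seg hp i k).concat (hp (i + k))

theorem seg_length {p : ℕ → V} (hp : ∀ i, G.Adj (p i) (p (i + 1))) (i k : ℕ) :
    (seg hp i k).length = k := by
  induction k with
  | zero => rfl
  | succ k ih =>
    show ((seg hp i k).concat (hp (i + k))).length = k + 1
    rw [Walk.length_concat, ih]

theorem seg_edges {p : ℕ → V} (hp : ∀ i, G.Adj (p i) (p (i + 1))) (i k : ℕ) :
    (seg hp i k).edges = (List.range k).map (fun t => s(p (i + t), p (i + t + 1))) := by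
  induction k with
  | zero => rfl
  | succ k ih =>
    show ((seg hp i k).concat (hp (i + k))).edges = _
    rw [Walk.edges_concat, ih, List.range_succ, List.map_append, List.concat_eq_append]
    rfl

theorem edge_ne {a b c : V} (h : a ≠ c) : s(a, b) ≠ s(b, c) := by
  intro he
  rw [Sym2.eq_iff] at he
  rcases he with ⟨h1, h2⟩ | ⟨h1, _⟩
  · exact h (h1.trans h2)
  · exact h h1

theorem edge_ne' {a b c : V} (h : b ≠ c) : s(a, b) ≠ s(a, c) := by
  intro he
  rw [Sym2.eq_iff] at he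
  rcases he with ⟨_, h2⟩ | ⟨h1, h2⟩
  · exact h h2
  · exact h (h2.trans h1)

theorem seg_nb {p : ℕ → V} (hp : Ray G p) (i k : ℕ) : NB (seg hp.adj i k) := by
  unfold NB
  rw [seg_edges, List.isChain_iff_getElem]
  intro j hj
  simp only [List.getElem_map, List.getElem_range]
  have := edge_ne (b := p (i + j + 1)) (hp.nb (i + j))
  exact this

theorem NB.reverse {x y : V} {p : G.Walk x y} (h : NB p) : NB p.reverse := by
  unfold NB at *
  rw [Walk.edges_reverse, List.isChain_reverse]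
  exact h.imp (fun a b hab => hab.symm)

theorem NB.append {x y z : V} {p : G.Walk x y} {q : G.Walk y z} (hp : NB p) (hq : NB q)
    (h : ∀ a ∈ p.edges.getLast?, ∀ b ∈ q.edges.head?, a ≠ b) : NB (p.append q) := by
  unfold NB at *
  rw [Walk.edges_append, List.isChain_append]
  exact ⟨hp, hq, h⟩

theorem NB.cons {x y z : V} {q : G.Walk y z} (h : G.Adj x y) (hq : NB q)
    (h' : ∀ b ∈ q.edges.head?, s(x, y) ≠ b) : NB (Walk.cons h q) := by
  unfold NB at *
  rw [Walk.edges_cons, List.isChain_cons]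
  exact ⟨h', hq⟩

theorem nb_nil (x : V) : NB (Walk.nil : G.Walk x x) := by
  unfold NB
  simp

/-- joining two walks by a section of a ray -/
theorem joined {p : ℕ → V} (hp : Ray G p) (i k : ℕ) (hk : 0 < k) {b b' : V}
    (W : G.Walk (p i) b) (W' : G.Walk (p (i + k)) b') (hW : NB W) (hW' : NB W')
    (h1 : ∀ y ∈ W.edges.head?, y ≠ s(p i, p (i + 1)))
    (h2 : ∀ y ∈ W'.edges.head?, s(p (i + k - 1), p (i + k)) ≠ y) :
    ∃ A : G.Walk b b', NB A ∧ A.length = W.length + k + W'.length := by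
  refine ⟨W.reverse.append ((seg hp.adj i k).append W'), ?_, ?_⟩
  · obtain ⟨m, rfl⟩ : ∃ m, k = m + 1 := ⟨k - 1, by omega⟩
    refine NB.append hW.reverse (NB.append (seg_nb hp i _) hW' ?_) ?_
    · intro a ha b hb
      rw [seg_edges, List.range_succ, List.map_append, List.map_singleton,
        List.getLast?_append_of_ne_nil _ (by simp)] at ha
      simp only [List.getLast?_singleton, Option.mem_def, Option.some.injEq] at ha
      rw [← ha]
      exact h2 b hb
    · intro a ha b hb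
      rw [Walk.edges_reverse, List.getLast?_reverse] at ha
      rw [Walk.edges_append, seg_edges, List.range_succ_eq_map] at hb
      simp only [List.map_cons, List.cons_append, List.head?_cons, Option.mem_def,
        Option.some.injEq, add_zero] at hb
      rw [← hb]
      exact h1 a ha
  · rw [Walk.length_append, Walk.length_append, Walk.length_reverse, seg_length]
    omega

/-- any two vertices of `B` have distance at most five -/
def Diam5 (G : SimpleGraph V) (B : Set V) : Prop :=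
  ∀ x ∈ B, ∀ y ∈ B, ∃ w : G.Walk x y, w.length ≤ 5

theorem no6 (h12 : G12 G) {B : Set V} (hB : Diam5 G B) {x y : V} (hx : x ∈ B) (hy : y ∈ B)
    (A : G.Walk x y) (hA : NB A) : A.length ≠ 6 := by
  intro h
  obtain ⟨w, hw⟩ := hB x hx y hy
  have := (uniq h12 A w hA (by omega)).1
  omega

/-- every vertex with a neighbour has three neighbours -/
def Deg3 (G : SimpleGraph V) : Prop := ∀ x y, G.Adj x y → ∃ a b c, G.Adj x a ∧ G.Adj x b ∧
  G.Adj x c ∧ a ≠ b ∧ a ≠ c ∧ b ≠ c

theorem Deg3.two (h3 : Deg3 G) {x y : V} (h : G.Adj x y) (z : V) :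
    ∃ a b, G.Adj x a ∧ G.Adj x b ∧ a ≠ b ∧ a ≠ z ∧ b ≠ z := by
  obtain ⟨a, b, c, ha, hb, hc, hab, hac, hbc⟩ := h3 x y h
  by_cases h1 : a = z
  · exact ⟨b, c, hb, hc, hbc, fun h => hab (h1.trans h.symm), fun h => hac (h1.trans h.symm)⟩
  · by_cases h2 : b = z
    · exact ⟨a, c, ha, hc, hac, h1, fun h => hbc (h2.trans h.symm)⟩
    · exact ⟨a, b, ha, hb, hab, h1, h2⟩

theorem Deg3.one (h3 : Deg3 G) {x y : V} (h : G.Adj x y) (z z' : V) :
    ∃ a, G.Adj x a ∧ a ≠ z ∧ a ≠ z' := by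
  obtain ⟨a, b, ha, hb, hab, h1, h2⟩ := h3.two h z
  by_cases h4 : a = z'
  · exact ⟨b, hb, h2, fun h => hab (h4.trans h.symm)⟩
  · exact ⟨a, ha, h1, h4⟩

/-- a walk with `e` edges which starts with the edge from `v` to `z` and ends in `B` -/
def Branch (G : SimpleGraph V) (B : Set V) (v z : V) (e : ℕ) : Prop :=
  ∃ b ∈ B, ∃ w : G.Walk v b, w.length = e ∧ NB w ∧ w.edges.head? = some s(v, z)

theorem Branch.cons {B : Set V} {v z c : V} {e : ℕ} (h : Branch G B z c e) (hvz : G.Adj v z)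
    (hc : c ≠ v) : Branch G B v z (e + 1) := by
  obtain ⟨b, hb, w, h1, h2, h3⟩ := h
  refine ⟨b, hb, Walk.cons hvz w, by rw [Walk.length_cons, h1], NB.cons hvz h2 ?_, ?_⟩
  · intro y hy
    rw [h3] at hy
    simp only [Option.mem_def, Option.some.injEq] at hy
    rw [← hy]
    exact edge_ne hc.symm
  · rw [Walk.edges_cons, List.head?_cons]

/-- two branches at a vertex -/
theorem Branch.pair {B : Set V} (h12 : G12 G) (hB : Diam5 G B) {v z z' : V} {e e' : ℕ}
    (h : Branch G B v z e) (h' : Branch G B v z' e') (hz : z ≠ z') : e + e' ≠ 6 := by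
  obtain ⟨b, hb, w, h1, h2, h3⟩ := h
  obtain ⟨b', hb', w', h1', h2', h3'⟩ := h'
  have hA : NB (w.reverse.append w') := by
    refine NB.append h2.reverse h2' ?_
    intro a ha c hc
    rw [Walk.edges_reverse, List.getLast?_reverse, h3] at ha
    rw [h3'] at hc
    simp only [Option.mem_def, Option.some.injEq] at ha hc
    rw [← ha, ← hc]
    exact edge_ne' hz
  have h6 := no6 h12 hB hb hb' _ hA
  rw [Walk.length_append, Walk.length_reverse, h1, h1'] at h6
  exact h6

/-- **branches have length at most three** -/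
theorem branch3 (h12 : G12 G) (h3 : Deg3 G) {K B : Set V} (hB : Diam5 G B)
    (hK : ∀ v ∈ K, ∀ w, G.Adj v w → w ∈ K ∨ w ∈ B) (hn : NoRay G (K \ B)) {v z : V} (hv : v ∈ K)
    (hvz : G.Adj v z) : ∃ e, 1 ≤ e ∧ e ≤ 3 ∧ Branch G B v z e := by
  by_contra hcon
  have hstep : ∀ a x, (a ∈ K ∧ G.Adj a x ∧ ¬ ∃ e, 1 ≤ e ∧ e ≤ 3 ∧ Branch G B a x e) →
      ∃ y, y ≠ a ∧ (x ∈ K ∧ G.Adj x y ∧ ¬ ∃ e, 1 ≤ e ∧ e ≤ 3 ∧ Branch G B x y e) := by
    rintro a x ⟨ha, hax, hno⟩
    have hxB : x ∉ B := fun hb => hno ⟨1, le_refl _, by norm_num, x, hb,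
      Walk.cons hax Walk.nil, rfl, NB.cons _ (nb_nil _) (by simp), rfl⟩
    have hxK : x ∈ K := (hK a ha x hax).resolve_right hxB
    obtain ⟨c, c', hc, hc', hcc, hca, hca'⟩ := h3.two hax.symm a
    by_cases h1 : ∃ e, 1 ≤ e ∧ e ≤ 3 ∧ Branch G B x c e
    · by_cases h2 : ∃ e, 1 ≤ e ∧ e ≤ 3 ∧ Branch G B x c' e
      · exfalso
        obtain ⟨e, he1, he2, hbr⟩ := h1
        obtain ⟨e', he1', he2', hbr'⟩ := h2
        have h3e : e = 3 := by
          by_contra hne
          exact hno ⟨e + 1, by omega, by omega, hbr.cons hax hca⟩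
        have h3e' : e' = 3 := by
          by_contra hne
          exact hno ⟨e' + 1, by omega, by omega, hbr'.cons hax hca'⟩
        exact Branch.pair h12 hB hbr hbr' hcc (by omega)
      · exact ⟨c', hca', hxK, hc', h2⟩
    · exact ⟨c, hca, hxK, hc, h1⟩
  obtain ⟨p, hp, hq⟩ := exists_ray (G := G) (fun a x => a ∈ K ∧ G.Adj a x ∧
    ¬ ∃ e, 1 ≤ e ∧ e ≤ 3 ∧ Branch G B a x e) (fun a x h => h.2.1) hstep v z ⟨hv, hvz, hcon⟩
  have hin : ∀ i, p (i + 1) ∈ K \ B := by
    intro i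
    refine ⟨(hq (i + 1)).1, fun hb => (hq i).2.2 ⟨1, le_refl _, by norm_num, p (i + 1), hb,
      Walk.cons (hq i).2.1 Walk.nil, rfl, ?_, rfl⟩⟩
    exact NB.cons _ (nb_nil _) (by simp)
  exact hn (fun i => p (1 + i)) (hp.shift 1) (fun i => by rw [add_comm]; exact hin i)

end Pool.Agent.L0h65.TL
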