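import Mathlib
import Pool.Agent.L0h65.TL.Ray

set_option autoImplicit false

/-! # Bags of weak diameter at most five -/

namespace Pool.Agent.L0h65.TL

open SimpleGraph

variable {V : Type} {G : SimpleGraph V}

/-- `s` and `t` describe two vertices at distance `k` on a ray: the first entry says whether the
vertex is in `B`, the second one is the length of a branch. There is no walk with six edges. -/
def cf (k : ℕ) (s t : Bool × ℕ) : Bool :=
  !((s.1 && t.1 && (k == 6)) || (s.1 && (k + t.2 == 6)) || (t.1 && (s.2 + k == 6)) ||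
    (s.2 + k + t.2 == 6))

def opts0 : List (Bool × ℕ) := [(true, 1), (true, 2), (true, 3)]

def opts : List (Bool × ℕ) := [(true, 1), (true, 2), (true, 3), (false, 1), (false, 2), (false, 3)]

set_option maxRecDepth 100000 in
theorem search : ∀ s0 ∈ opts0, ∀ s1 ∈ opts, cf 1 s0 s1 = true →
    ∀ s2 ∈ opts, (cf 2 s0 s2 && cf 1 s1 s2) = true →
    ∀ s3 ∈ opts, (cf 3 s0 s3 && cf 2 s1 s3 && cf 1 s2 s3) = true →
    ∀ s4 ∈ opts, (cf 4 s0 s4 && cf 3 s1 s4 && cf 2 s2 s4 && cf 1 s3 s4) = true →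
    ∀ s5 ∈ opts, (cf 5 s0 s5 && cf 4 s1 s5 && cf 3 s2 s5 && cf 2 s3 s5 && cf 1 s4 s5) = true →
    ∀ s6 ∈ opts, (cf 6 s0 s6 && cf 5 s1 s6 && cf 4 s2 s6 && cf 3 s3 s6 && cf 2 s4 s6 && cf 1 s5 s6) = true →
    ∀ s7 ∈ opts, (cf 7 s0 s7 && cf 6 s1 s7 && cf 5 s2 s7 && cf 4 s3 s7 && cf 3 s4 s7 && cf 2 s5 s7 && cf 1 s6 s7) = true →
    ∀ s8 ∈ opts, (cf 8 s0 s8 && cf 7 s1 s8 && cf 6 s2 s8 && cf 5 s3 s8 && cf 4 s4 s8 && cf 3 s5 s8 && cf 2 s6 s8 && cf 1 s7 s8) = true →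
    False := by decide

/-- a nonbacktracking walk from `p i` to `B` which does not start along the ray -/
def Opt (G : SimpleGraph V) (B : Set V) (p : ℕ → V) (i l : ℕ) : Prop :=
  ∃ b ∈ B, ∃ W : G.Walk (p i) b, W.length = l ∧ NB W ∧
    (∀ y ∈ W.edges.head?, y ≠ s(p i, p (i + 1))) ∧
    (∀ y ∈ W.edges.head?, 0 < i → s(p (i - 1), p i) ≠ y)

theorem Opt.key (h12 : G12 G) {B : Set V} (hB : Diam5 G B) {p : ℕ → V} (hp : Ray G p) {i k a c : ℕ}
    (hk : 0 < k) (h : Opt G B p i a) (h' : Opt G B p (i + k) c) : a + k + c ≠ 6 := by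
  obtain ⟨b, hb, W, h1, h2, h3, _⟩ := h
  obtain ⟨b', hb', W', h1', h2', _, h4'⟩ := h'
  obtain ⟨A, hA, hl⟩ := joined hp i k hk W W' h2 h2' h3 (fun y hy => h4' y hy (by omega))
  have := no6 h12 hB hb hb' A hA
  omega

/-- **bags of weak diameter at most five** -/
theorem noRay_diam (h12 : G12 G) (h3 : Deg3 G) {K B : Set V} (hB : Diam5 G B)
    (hK : ∀ v ∈ K, ∀ w, G.Adj v w → w ∈ K ∨ w ∈ B) (hn : NoRay G (K \ B)) : NoRay G K := by
  classical
  intro q hq hqK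
  by_cases hex : ∃ i, q i ∈ B
  swap
  · exact hn q hq (fun i => ⟨hqK i, fun h => hex ⟨i, h⟩⟩)
  obtain ⟨i0, hi0⟩ := hex
  obtain ⟨p, hp, hpK, hp0⟩ : ∃ p : ℕ → V, Ray G p ∧ (∀ i, p i ∈ K) ∧ p 0 ∈ B :=
    ⟨fun i => q (i0 + i), hq.shift i0, fun i => hqK _, hi0⟩
  have hbr : ∀ i, ∃ e, 1 ≤ e ∧ e ≤ 3 ∧ Opt G B p i e := by
    intro i
    obtain ⟨z, hz, hz1, hz2⟩ := h3.one (hp.adj i) (p (i + 1)) (p (i - 1))
    obtain ⟨e, he1, he2, b, hb, w, hw1, hw2, hw3⟩ := branch3 h12 h3 hB hK hn (hpK i) hz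
    refine ⟨e, he1, he2, b, hb, w, hw1, hw2, ?_, ?_⟩
    · intro y hy
      rw [hw3] at hy
      simp only [Option.mem_def, Option.some.injEq] at hy
      rw [← hy]
      exact edge_ne' hz1
    · intro y hy _
      rw [hw3] at hy
      simp only [Option.mem_def, Option.some.injEq] at hy
      rw [← hy]
      exact edge_ne hz2.symm
  choose e he1 he2 he using hbr
  have hnil : ∀ i, p i ∈ B → Opt G B p i 0 := fun i hi =>
    ⟨p i, hi, Walk.nil, rfl, nb_nil _, by simp, by simp⟩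
  set s : ℕ → Bool × ℕ := fun i => (decide (p i ∈ B), e i) with hs
  have hcf : ∀ i k, 0 < k → cf k (s i) (s (i + k)) = true := by
    intro i k hk
    have h1 : ∀ {a c : ℕ}, Opt G B p i a → Opt G B p (i + k) c → a + k + c ≠ 6 :=
      fun h h' => Opt.key h12 hB hp hk h h'
    unfold cf
    rw [Bool.not_eq_true', Bool.eq_false_iff]
    intro h
    simp only [hs, Bool.or_eq_true, Bool.and_eq_true, decide_eq_true_eq, beq_iff_eq] at h
    rcases h with ((⟨⟨h4, h5⟩, h6⟩ | ⟨h4, h5⟩) | ⟨h4, h5⟩) | h4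
    · exact h1 (hnil _ h4) (hnil _ h5) (by omega)
    · exact h1 (hnil _ h4) (he _) (by omega)
    · exact h1 (he _) (hnil _ h4) (by omega)
    · exact h1 (he _) (he _) (by omega)
  have hopt : ∀ i, s i ∈ opts := by
    intro i
    have h1 := he1 i
    have h2 := he2 i
    simp only [hs, opts]
    have h3 : e i = 1 ∨ e i = 2 ∨ e i = 3 := by omega
    rcases h3 with h3 | h3 | h3 <;> rw [h3] <;> cases decide (p i ∈ B) <;> decide
  have hopt0 : s 0 ∈ opts0 := by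
    have h1 := he1 0
    have h2 := he2 0
    simp only [hs, opts0]
    have h3 : e 0 = 1 ∨ e 0 = 2 ∨ e 0 = 3 := by omega
    rw [decide_eq_true hp0]
    rcases h3 with h3 | h3 | h3 <;> rw [h3] <;> decide
  have c : ∀ i j, i < j → cf (j - i) (s i) (s j) = true := by
    intro i j hij
    have := hcf i (j - i) (by omega)
    rwa [show i + (j - i) = j by omega] at this
  refine search (s 0) hopt0 (s 1) (hopt 1) (c 0 1 (by norm_num))
    (s 2) (hopt 2) ?_ (s 3) (hopt 3) ?_ (s 4) (hopt 4) ?_ (s 5) (hopt 5) ?_ (s 6) (hopt 6) ?_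
    (s 7) (hopt 7) ?_ (s 8) (hopt 8) ?_ <;>
  simp only [Bool.and_eq_true] <;>
  refine_lift ?_ <;>
  repeat' apply And.intro
  all_goals exact c _ _ (by norm_num)

end Pool.Agent.L0h65.TL
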