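import Mathlib
import Pool.Agent.L0h65.TL.Diam

set_option autoImplicit false

/-! # Bags in the ball of radius four around an edge or a vertex -/

namespace Pool.Agent.L0h65.TL

open SimpleGraph

variable {V : Type} {G : SimpleGraph V}

/-- the distance of `x` and `{u, v}` is at most `k` -/
def Lv (G : SimpleGraph V) (u v : V) (k : ℕ) (x : V) : Prop :=
  ∃ c, (c = u ∨ c = v) ∧ ∃ w : G.Walk x c, w.length ≤ k

theorem Lv.mono {u v : V} {k l : ℕ} {x : V} (h : Lv G u v k x) (hkl : k ≤ l) : Lv G u v l x := by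
  obtain ⟨c, hc, w, hw⟩ := h
  exact ⟨c, hc, w, hw.trans hkl⟩

theorem Lv.supp {u v : V} {k : ℕ} {x c z : V} (hc : c = u ∨ c = v) (w : G.Walk x c)
    (hw : w.length ≤ k) (hz : z ∈ w.support) : Lv G u v k z := by
  classical
  refine ⟨c, hc, w.dropUntil z hz, ?_⟩
  have := w.length_dropUntil_le_length hz
  omega

theorem Lv.connect {u v : V} (huv : u = v ∨ G.Adj u v) {k : ℕ} {x y : V} (hx : Lv G u v k x)
    (hy : Lv G u v k y) : ∃ r : G.Walk x y, r.length ≤ 2 * k + 1 ∧ ∀ z ∈ r.support,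
      Lv G u v k z := by
  obtain ⟨c, hc, w, hw⟩ := hx
  obtain ⟨c', hc', w', hw'⟩ := hy
  have hl : ∃ l : G.Walk c c', l.length ≤ 1 ∧ ∀ z ∈ l.support, z = c ∨ z = c' := by
    by_cases h : c = c'
    · subst h
      exact ⟨Walk.nil, by simp, by simp⟩
    · have hadj : G.Adj c c' := by
        rcases hc with rfl | rfl <;> rcases hc' with rfl | rfl
        · exact absurd rfl h
        · exact huv.resolve_left h
        · exact (huv.resolve_left (Ne.symm h)).symm
        · exact absurd rfl h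
      exact ⟨Walk.cons hadj Walk.nil, by simp, by simp⟩
  obtain ⟨l, hl1, hl2⟩ := hl
  refine ⟨w.append (l.append w'.reverse), ?_, ?_⟩
  · rw [Walk.length_append, Walk.length_append, Walk.length_reverse]
    omega
  · intro z hz
    rw [Walk.mem_support_append_iff, Walk.mem_support_append_iff, Walk.support_reverse,
      List.mem_reverse] at hz
    rcases hz with hz | hz | hz
    · exact Lv.supp hc w hw hz
    · rcases hl2 z hz with rfl | rfl
      · exact ⟨z, hc, Walk.nil, by simp⟩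
      · exact ⟨z, hc', Walk.nil, by simp⟩
    · exact Lv.supp hc' w' hw' hz

theorem one_in (h12 : G12 G) {u v : V} (huv : u = v ∨ G.Adj u v) {k : ℕ} (hk : k ≤ 4) {x y y' : V}
    (hx : ¬ Lv G u v k x) (hy : Lv G u v k y) (hy' : Lv G u v k y') (h : G.Adj x y)
    (h' : G.Adj x y') : y = y' := by
  by_contra hne
  obtain ⟨r, hr1, hr2⟩ := Lv.connect huv hy hy'
  have hA : NB (Walk.cons h.symm (Walk.cons h' Walk.nil)) := by
    refine NB.cons _ (NB.cons _ (nb_nil _) (by simp)) ?_
    intro b hb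
    simp only [Walk.edges_cons, List.head?_cons, Option.mem_def, Option.some.injEq] at hb
    rw [← hb]
    exact edge_ne hne
  have := (uniq h12 _ r hA (by simp only [Walk.length_cons, Walk.length_nil]; omega)).2 x (by simp)
  exact hx (hr2 x this)

theorem parent {u v : V} {k : ℕ} {x : V} (h1 : Lv G u v (k + 1) x) (h2 : ¬ Lv G u v k x) :
    ∃ x', G.Adj x x' ∧ Lv G u v k x' := by
  obtain ⟨c, hc, w, hw⟩ := h1
  cases w with
  | nil => exact absurd ⟨_, hc, Walk.nil, by simp⟩ h2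
  | @cons _ x' _ h w' =>
    rw [Walk.length_cons] at hw
    have hw' : w'.length ≤ k := by omega
    exact ⟨_, h, _, hc, w', hw'⟩

theorem no_level (h12 : G12 G) {u v : V} (huv : u = v ∨ G.Adj u v) {k : ℕ} (hk : k ≤ 3) {x y : V}
    (hx : ¬ Lv G u v k x) (hx1 : Lv G u v (k + 1) x) (hy : ¬ Lv G u v k y)
    (hy1 : Lv G u v (k + 1) y) (h : G.Adj x y) : False := by
  obtain ⟨x', hx2, hx3⟩ := parent hx1 hx
  obtain ⟨y', hy2, hy3⟩ := parent hy1 hy
  obtain ⟨r, hr1, hr2⟩ := Lv.connect huv hx3 hy3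
  have hne : x' ≠ y := fun he => hy (he ▸ hx3)
  have hne' : x ≠ y' := fun he => hx (he ▸ hy3)
  have hA : NB (Walk.cons hx2.symm (Walk.cons h (Walk.cons hy2 Walk.nil))) := by
    refine NB.cons _ (NB.cons _ (NB.cons _ (nb_nil _) (by simp)) ?_) ?_
    · intro b hb
      simp only [Walk.edges_cons, List.head?_cons, Option.mem_def, Option.some.injEq] at hb
      rw [← hb]
      exact edge_ne hne'
    · intro b hb
      simp only [Walk.edges_cons, List.head?_cons, Option.mem_def, Option.some.injEq] at hb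
      rw [← hb]
      exact edge_ne hne
  have := (uniq h12 _ r hA (by simp only [Walk.length_cons, Walk.length_nil]; omega)).2 x (by simp)
  exact hx (hr2 x this)

theorem noRay_ball4 (h12 : G12 G) {u v : V} (huv : u = v ∨ G.Adj u v) (k : ℕ) (hk : k ≤ 4) :
    NoRay G {x | Lv G u v k x} := by
  induction k with
  | zero =>
    intro p hp hpK
    have h0 : ∀ i, p i = u ∨ p i = v := by
      intro i
      obtain ⟨c, hc, w, hw⟩ := hpK i
      have hw0 : w.length = 0 := by omega
      have : p i = c := Walk.eq_of_length_eq_zero hw0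
      rw [this]
      exact hc
    have h1 := (hp.adj 0).ne
    have h2 := (hp.adj 1).ne
    have h3 := hp.nb 0
    simp only [zero_add] at h1 h3
    rcases h0 0 with a | a <;> rcases h0 1 with b | b <;> rcases h0 2 with c | c <;>
      simp_all
  | succ k ih =>
    intro p hp hpK
    refine ih (by omega) (fun i => p (1 + i)) (hp.shift 1) (fun i => ?_)
    show Lv G u v k (p (1 + i))
    rw [add_comm 1 i]
    by_contra hcon
    have ha : Lv G u v k (p i) := by
      by_contra h
      exact no_level h12 huv (by omega) h (hpK i) hcon (hpK (i + 1)) (hp.adj i)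
    have hb : Lv G u v k (p (i + 2)) := by
      by_contra h
      exact no_level h12 huv (by omega) hcon (hpK (i + 1)) h (hpK (i + 2)) (hp.adj (i + 1))
    exact hp.nb i (one_in h12 huv (by omega) hcon ha hb (hp.adj i).symm (hp.adj (i + 1)))

/-- **bags in the ball of radius four around an edge or a vertex** -/
theorem noRay_ball (h12 : G12 G) (h3 : Deg3 G) {u v : V} (huv : u = v ∨ G.Adj u v) {K B : Set V}
    (hB : ∀ x ∈ B, Lv G u v 4 x) (hK : ∀ v ∈ K, ∀ w, G.Adj v w → w ∈ K ∨ w ∈ B)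
    (hn : NoRay G (K \ B)) : NoRay G K := by
  intro p hp hpK
  by_cases hall : ∀ i, Lv G u v 4 (p i)
  · exact noRay_ball4 h12 huv 4 le_rfl p hp hall
  push Not at hall
  obtain ⟨i, hi⟩ := hall
  have hstep : ∀ x y z, x ∈ K → ¬ Lv G u v 4 x → G.Adj x y →
      ∃ a, a ≠ z ∧ G.Adj x a ∧ a ∈ K ∧ ¬ Lv G u v 4 a := by
    intro x y z hx hx4 hxy
    obtain ⟨a, b, ha, hb, hab, haz, hbz⟩ := h3.two hxy z
    by_cases h4 : Lv G u v 4 a
    · have h5 : ¬ Lv G u v 4 b := fun h => hab (one_in h12 huv le_rfl hx4 h4 h ha hb)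
      exact ⟨b, hbz, hb, (hK x hx b hb).resolve_right (fun h => h5 (hB b h)), h5⟩
    · exact ⟨a, haz, ha, (hK x hx a ha).resolve_right (fun h => h4 (hB a h)), h4⟩
  obtain ⟨a, _, ha, haK, ha4⟩ := hstep (p i) _ (p i) (hpK i) hi (hp.adj i)
  obtain ⟨q, hq, hq2⟩ := exists_ray (G := G)
    (fun a x => a ∈ K ∧ ¬ Lv G u v 4 a ∧ G.Adj a x ∧ x ∈ K ∧ ¬ Lv G u v 4 x)
    (fun a x h => h.2.2.1)
    (fun a x h => by
      obtain ⟨c, hc1, hc2, hc3, hc4⟩ := hstep x a a h.2.2.2.1 h.2.2.2.2 h.2.2.1.symm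
      exact ⟨c, hc1, h.2.2.2.1, h.2.2.2.2, hc2, hc3, hc4⟩)
    (p i) a ⟨hpK i, hi, ha, haK, ha4⟩
  exact hn q hq (fun j => ⟨(hq2 j).1, fun h => (hq2 j).2.1 (hB _ h)⟩)

end Pool.Agent.L0h65.TL
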