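import Mathlib
import Pool.Agent.L0h65.TL.Ball

set_option autoImplicit false

/-! # Graphs of girth at least twelve have no tree decomposition with bags of these two kinds -/

namespace Pool.Agent.L0h65.TL

open SimpleGraph

variable {V : Type} {G : SimpleGraph V}

/-- `a` is a descendant of `k` (or equal to `k`) in the rooted tree given by `par` -/
inductive Desc (par : ℕ → ℕ) (k : ℕ) : ℕ → Prop
  | refl : Desc par k k
  | step (a : ℕ) : k < a → Desc par k (par a) → Desc par k a

theorem Desc.le {par : ℕ → ℕ} {k a : ℕ} (h : Desc par k a) : k ≤ a := by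
  cases h with
  | refl => exact le_rfl
  | step _ h _ => exact h.le

/-- the property of the bags which is used -/
def GoodBag (G : SimpleGraph V) (B : Set V) : Prop :=
  ∀ K : Set V, (∀ v ∈ K, ∀ w, G.Adj v w → w ∈ K ∨ w ∈ B) → NoRay G (K \ B) → NoRay G K

section

variable {n : ℕ} {par : ℕ → ℕ} {B : ℕ → Finset V} (h0 : ∀ i, 0 < i → i < n → par i < i)
  (h2 : ∀ i j v, j < i → i < n → v ∈ B i → v ∈ B j → v ∈ B (par i))

include h0 h2 in
/-- all bags which contain `v` are descendants of `k`, if one of them is and `v` is in no bag before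
`k` -/
theorem desc_of {k : ℕ} {v : V} (hk : ∀ b, b < k → v ∉ B b) :
    ∀ a a' : ℕ, a < n → a' < n → v ∈ B a → v ∈ B a' → Desc par k a → Desc par k a' := by
  -- induction on the sum
  have key : ∀ m a a' : ℕ, a + a' ≤ m → a < n → a' < n → v ∈ B a → v ∈ B a' → Desc par k a →
      Desc par k a' := by
    intro m
    induction m with
    | zero =>
      intro a a' hm _ _ _ _ h
      obtain rfl : a = a' := by omega
      exact h
    | succ m ih =>
      intro a a' hm ha ha' hva hva' h
      rcases Nat.lt_trichotomy a a' with hlt | rfl | hlt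
      · have hk' : k ≤ a := h.le
        have h5 := h2 a' a v hlt ha' hva' hva
        have h6 := h0 a' (by omega) ha'
        exact Desc.step a' (by omega) (ih a (par a') (by omega) ha (by omega) hva h5 h)
      · exact h
      · have hk' : k ≤ a' := by
          by_contra hcon
          exact hk a' (by omega) hva'
        have h5 := h2 a a' v hlt ha hva hva'
        have h6 := h0 a (by omega) ha
        cases h with
        | refl => omega
        | step _ hka hd => exact ih (par a) a' (by omega) (by omega) ha' h5 hva' hd
  exact fun a a' => key (a + a') a a' le_rfl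

include h0 h2 in
/-- **no ray** in a graph with a decomposition into good bags -/
theorem noRay_dec (h1 : ∀ x y, G.Adj x y → ∃ i, i < n ∧ x ∈ B i ∧ y ∈ B i)
    (hB : ∀ i, i < n → GoodBag G (B i : Set V)) : NoRay G Set.univ := by
  have hp : ∀ i, i < n → 0 < i → par i < n := fun i hi h => (h0 i h hi).trans hi
  -- the vertices which are in no bag before `k`
  have main : ∀ j, j ≤ n → NoRay G {v | ∀ b, b < n - j → v ∉ B b} := by
    intro j
    induction j with
    | zero =>
      intro _ p hp hpK
      obtain ⟨i, hi, hi1, _⟩ := h1 _ _ (hp.adj 0)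
      exact hpK 0 i (by omega) hi1
    | succ j ih =>
      intro hj p hray hpK
      obtain ⟨k, hk⟩ : ∃ k, k = n - (j + 1) := ⟨_, rfl⟩
      have hkn : k < n := by omega
      have ih' : NoRay G {v | ∀ b, b < k + 1 → v ∉ B b} := by
        have := ih (by omega)
        rwa [show n - j = k + 1 by omega] at this
      have hpK' : ∀ i, ∀ b, b < k → p i ∉ B b := by
        intro i b hb
        exact hpK i b (by omega)
      -- the ray meets the bag `k`
      by_cases hex : ∃ i, p i ∈ B k
      swap
      · refine ih' p hray (fun i b hb => ?_)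
        by_cases h : b = k
        · rw [h]; exact fun h => hex ⟨i, h⟩
        · exact hpK' i b (by omega)
      obtain ⟨i0, hi0⟩ := hex
      set K : Set V := {v | (∀ b, b < k → v ∉ B b) ∧ ∃ a, a < n ∧ v ∈ B a ∧ Desc par k a} with hK
      have hnb : ∀ v ∈ K, ∀ w, G.Adj v w → w ∈ K ∨ w ∈ (B k : Set V) := by
        rintro v ⟨hv1, a, ha, hva, hda⟩ w hvw
        obtain ⟨i, hi, hvi, hwi⟩ := h1 v w hvw
        have hdi := desc_of h0 h2 hv1 a i ha hi hva hvi hda
        by_cases hw : ∀ b, b < k → w ∉ B b
        · exact Or.inl ⟨hw, i, hi, hwi, hdi⟩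
        · push Not at hw
          obtain ⟨b, hb, hwb⟩ := hw
          right
          -- go up from `i`
          have : ∀ c, Desc par k c → c < n → w ∈ B c → w ∈ B k := by
            intro c hc
            induction hc with
            | refl => exact fun _ h => h
            | step c hkc _ ihc =>
              intro hc hwc
              exact ihc (hp c hc (by omega)) (h2 c b w (by omega) hc hwc hwb)
          exact this i hdi hi hwi
      have hn : NoRay G (K \ (B k : Set V)) := by
        intro q hq hqK
        refine ih' q hq (fun i b hb => ?_)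
        by_cases h : b = k
        · rw [h]; exact (hqK i).2
        · exact (hqK i).1.1 b (by omega)
      refine hB k hkn K hnb hn (fun i => p (i0 + i)) (hray.shift i0) (fun i => ?_)
      induction i with
      | zero => exact ⟨hpK' _, k, hkn, hi0, Desc.refl⟩
      | succ i ihi =>
        rcases hnb _ ihi _ (hray.adj (i0 + i)) with h | h
        · exact h
        · exact ⟨hpK' _, k, hkn, h, Desc.refl⟩
  have := main n le_rfl
  intro p hray _
  exact this p hray (fun i b hb => by omega)

end

/-- every graph with three neighbours at each vertex which is not isolated has a ray -/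
theorem exists_ray_univ (h3 : Deg3 G) {x y : V} (h : G.Adj x y) : ∃ p : ℕ → V, Ray G p := by
  obtain ⟨p, hp, _⟩ := exists_ray (G := G) (fun a b => G.Adj a b) (fun a b h => h)
    (fun a b h => by
      obtain ⟨c, hc, hca, _⟩ := h3.one h.symm a a
      exact ⟨c, hca, hc⟩) x y h
  exact ⟨p, hp⟩

/-- two kinds of good bags -/
theorem goodBag (h12 : G12 G) (h3 : Deg3 G) {B : Set V}
    (hB : Diam5 G B ∨ ∃ u v, (u = v ∨ G.Adj u v) ∧ ∀ x ∈ B, Lv G u v 4 x) : GoodBag G B := by
  intro K hK hn
  rcases hB with hB | ⟨u, v, huv, hB⟩
  · exact noRay_diam h12 h3 hB hK hn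
  · exact noRay_ball h12 h3 huv hB hK hn

end Pool.Agent.L0h65.TL
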