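import Pool.Agent.Y358.IN.Ind
import Pool.Agent.TH676.Z.Main
import Pool.Agent.L0h65.TL.Num
import Pool.Agent.L0h65.TL.Dec

set_option autoImplicit false
set_option linter.unusedSectionVars false

/-! # The class of the graphs with a tree decomposition with bags of two metric kinds -/

namespace Pool.Agent.L0h65.TL

open Finset Pool.Agent.TH676.Z Pool.Agent.Y335.FL Pool.Agent.Y358.IN

variable {V E : Type} [Fintype V] [DecidableEq V] [Fintype E] [DecidableEq E]

/-- the distance of `x` and `y` is at most `k` -/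
def Within (src dst : E → V) (k : ℕ) (x y : V) : Prop :=
  ∃ p : ℕ → V, p 0 = x ∧ p k = y ∧ ∀ i < k, p i = p (i + 1) ∨ Adj src dst (p i) (p (i + 1))

/-- the two kinds of bags -/
def Met (src dst : E → V) (B : Finset V) : Prop :=
  (∀ x ∈ B, ∀ y ∈ B, Within src dst 5 x y) ∨
    ∃ u v, (u = v ∨ Adj src dst u v) ∧ ∀ x ∈ B, Within src dst 4 x u ∨ Within src dst 4 x v

theorem adj_ctr_or {src dst : E → V} {u v x y : V} (h : x = y ∨ Adj src dst x y) :
    ctr u v x = ctr u v y ∨ Adj (ctr u v ∘ src) (ctr u v ∘ dst) (ctr u v x) (ctr u v y) := by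
  rcases h with h | h
  · exact Or.inl (by rw [h])
  · by_cases hne : ctr u v x = ctr u v y
    · exact Or.inl hne
    · exact Or.inr (adj_ctr h hne)

theorem Within.ctr {src dst : E → V} {k : ℕ} {x y : V} (h : Within src dst k x y) (u v : V) :
    Within (Pool.Agent.TH676.Z.ctr u v ∘ src) (Pool.Agent.TH676.Z.ctr u v ∘ dst) k
      (Pool.Agent.TH676.Z.ctr u v x) (Pool.Agent.TH676.Z.ctr u v y) := by
  obtain ⟨p, h1, h2, h3⟩ := h
  exact ⟨fun i => Pool.Agent.TH676.Z.ctr u v (p i), congrArg _ h1, congrArg _ h2,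
    fun i hi => adj_ctr_or (h3 i hi)⟩

theorem Met.ctr {src dst : E → V} {B : Finset V} (h : Met src dst B) (u v : V) :
    Met (Pool.Agent.TH676.Z.ctr u v ∘ src) (Pool.Agent.TH676.Z.ctr u v ∘ dst)
      (B.image (Pool.Agent.TH676.Z.ctr u v)) := by
  rcases h with h | ⟨a, b, hab, h⟩
  · left
    intro x hx y hy
    obtain ⟨x', hx', rfl⟩ := mem_image.1 hx
    obtain ⟨y', hy', rfl⟩ := mem_image.1 hy
    exact (h x' hx' y' hy').ctr u v
  · right
    refine ⟨Pool.Agent.TH676.Z.ctr u v a, Pool.Agent.TH676.Z.ctr u v b, adj_ctr_or hab, ?_⟩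
    intro x hx
    obtain ⟨x', hx', rfl⟩ := mem_image.1 hx
    rcases h x' hx' with h5 | h5
    · exact Or.inl (h5.ctr u v)
    · exact Or.inr (h5.ctr u v)

/-- a rooted tree decomposition with bags of the two kinds -/
def HasM (src dst : E → V) : Prop :=
  ∃ (n : ℕ) (par : ℕ → ℕ) (B : ℕ → Finset V), (∀ i, 0 < i → i < n → par i < i) ∧
    (∀ e, ∃ i, i < n ∧ src e ∈ B i ∧ dst e ∈ B i) ∧
    (∀ i j v, j < i → i < n → v ∈ B i → v ∈ B j → v ∈ B (par i)) ∧
    ∀ i, i < n → Met src dst (B i)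

theorem ccM : CC (V := V) (E := E) HasM := by
  intro src dst e h hne
  obtain ⟨n, par, B, h0, h1, h2, h4⟩ := h
  refine ⟨n, par, fun i => (B i).image (ctr (src e) (dst e)), h0, ?_, ?_,
    fun i hi => (h4 i hi).ctr _ _⟩
  · intro d
    obtain ⟨i, hin, hi1, hi2⟩ := h1 d
    exact ⟨i, hin, mem_image_of_mem _ hi1, mem_image_of_mem _ hi2⟩
  · have hm : ∀ i v, v ∈ (B i).image (ctr (src e) (dst e)) ↔
        (v ∈ B i ∧ v ≠ dst e) ∨ (v = src e ∧ dst e ∈ B i) := by
      intro i v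
      rw [mem_image]
      constructor
      · rintro ⟨y, hy, hyv⟩
        by_cases h : y = dst e
        · rw [h, ctr_v] at hyv
          exact Or.inr ⟨hyv.symm, h ▸ hy⟩
        · rw [ctr_of_ne h] at hyv
          exact Or.inl ⟨hyv ▸ hy, hyv ▸ h⟩
      · rintro (⟨h5, h6⟩ | ⟨h5, h6⟩)
        · exact ⟨v, h5, ctr_of_ne h6⟩
        · exact ⟨dst e, h6, by rw [ctr_v, h5]⟩
    intro i j v hji hi hvi hvj
    change v ∈ (B i).image (ctr (src e) (dst e)) at hvi
    change v ∈ (B j).image (ctr (src e) (dst e)) at hvj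
    change v ∈ (B (par i)).image (ctr (src e) (dst e))
    rw [hm] at hvi hvj ⊢
    obtain ⟨b, hbn, hb1, hb2⟩ := h1 e
    rcases hvi with ⟨h5, h6⟩ | ⟨h5, h6⟩ <;> rcases hvj with ⟨h7, h8⟩ | ⟨h7, h8⟩
    · exact Or.inl ⟨h2 i j v hji hi h5 h7, h6⟩
    · rw [h7] at h5
      rcases two_conn h0 h2 ⟨b, hbn, hb1, hb2⟩ hji hi h5 h8 with h | h
      · rw [h7]; exact Or.inl ⟨h, hne⟩
      · exact Or.inr ⟨h7, h⟩
    · rw [h5] at h7
      rcases two_conn h0 h2 ⟨b, hbn, hb2, hb1⟩ hji hi h6 h7 with h | h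
      · exact Or.inr ⟨h5, h⟩
      · rw [h5]; exact Or.inl ⟨h, hne⟩
    · exact Or.inr ⟨h5, h2 i j _ hji hi h6 h8⟩

theorem Within.walk {src dst : E → V} {G : SimpleGraph V} (hG : ∀ a b, G.Adj a b ↔ Adj src dst a b)
    {x y : V} {k : ℕ} (h : Within src dst k x y) : ∃ w : G.Walk x y, w.length ≤ k := by
  obtain ⟨p, rfl, rfl, h3⟩ := h
  induction k with
  | zero => exact ⟨SimpleGraph.Walk.nil, le_rfl⟩
  | succ k ih =>
    obtain ⟨w, hw⟩ := ih (fun i hi => h3 i (by omega))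
    rcases h3 k (by omega) with h | h
    · rw [← h]
      exact ⟨w, by omega⟩
    · refine ⟨w.concat ((hG _ _).2 h), ?_⟩
      rw [SimpleGraph.Walk.length_concat]
      omega

/-- **Main step.** -/
theorem flow_of_HasM (hc : St_contract) {src dst : E → V} (hcl : HasM src dst)
    (hbr : Br src dst ∅ ∅) : FlowOn src dst ∅ ∅ := by
  classical
  by_contra hn
  obtain ⟨s, d, ⟨n, par, B, h0, h1, h2, h4⟩, hM⟩ := exists_minC ccM src dst hcl hbr hn
  have h3 := threeC hc hM
  have hgi := girthC hc hM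
  by_cases hl : ∀ e, s e = d e
  · exact hM.nf (flow_of_loops hl)
  push Not at hl
  obtain ⟨e, he⟩ := hl
  let G : SimpleGraph V :=
    { Adj := Adj s d
      symm := ⟨fun a b h => GiAux.adj_symm h⟩
      loopless := ⟨fun a h => h.1 rfl⟩ }
  have hG : ∀ a b, G.Adj a b ↔ Adj s d a b := fun a b => Iff.rfl
  have h12 : G12 G := fun w c hc => Ord.cycle_len hgi G hG c hc
  have hd3 : Deg3 G := by
    intro x y hxy
    obtain ⟨z1, z2, z3, a1, a2, a3, n1, n2, n3⟩ := h3 x y hxy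
    exact ⟨z1, z2, z3, a1, a2, a3, n1, n2, n3⟩
  have hno : NoRay G Set.univ := by
    refine noRay_dec (n := n) (par := par) (B := B) h0 h2 ?_ ?_
    · rintro x y ⟨_, f, ⟨ha, hb⟩ | ⟨ha, hb⟩⟩
      · obtain ⟨i, hi, hi1, hi2⟩ := h1 f
        exact ⟨i, hi, ha ▸ hi1, hb ▸ hi2⟩
      · obtain ⟨i, hi, hi1, hi2⟩ := h1 f
        exact ⟨i, hi, hb ▸ hi2, ha ▸ hi1⟩
    · intro i hi
      refine goodBag h12 hd3 ?_
      rcases h4 i hi with h | ⟨u, v, huv, h⟩
      · exact Or.inl (fun x hx y hy => (h x hx y hy).walk hG)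
      · refine Or.inr ⟨u, v, huv, fun x hx => ?_⟩
        rcases h x hx with h5 | h5
        · exact ⟨u, Or.inl rfl, h5.walk hG⟩
        · exact ⟨v, Or.inr rfl, h5.walk hG⟩
  obtain ⟨p, hp⟩ := exists_ray_univ hd3 ((hG _ _).2 ⟨he, e, Or.inl ⟨rfl, rfl⟩⟩)
  exact hno p hp (fun _ => Set.mem_univ _)

/-- from the usual definition of tree decompositions -/
theorem HasM.of_tree {ι : Type} [Fintype ι] {T : SimpleGraph ι} {C : ι → Finset V}
    {src dst : E → V} (hT : T.IsTree) (hC : PathCond T C)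
    (he : ∀ e, ∃ i, src e ∈ C i ∧ dst e ∈ C i) (hw : ∀ i, Met src dst (C i)) :
    HasM src dst := by
  classical
  obtain ⟨m, hm⟩ : ∃ m, Fintype.card ι = m + 1 := by
    have := hT.connected.nonempty
    exact ⟨Fintype.card ι - 1, by have := Fintype.card_pos (α := ι); omega⟩
  obtain ⟨num, par, h1, h2, h3, h4⟩ := numbering m ι T C hT hC hm
  have hsurj : ∀ a, a < m + 1 → ∃ i, num i = a := by
    intro a ha
    have hb : Function.Bijective (fun i => (⟨num i, h2 i⟩ : Fin (m + 1))) := by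
      rw [Fintype.bijective_iff_injective_and_card]
      refine ⟨fun i j hij => h1 (by simpa using hij), by rw [hm, Fintype.card_fin]⟩
    obtain ⟨i, hi⟩ := hb.2 ⟨a, ha⟩
    exact ⟨i, by simpa using congrArg Fin.val hi⟩
  have := hT.connected.nonempty
  have hinv : ∀ i, Function.invFun num (num i) = i := Function.leftInverse_invFun h1
  refine ⟨m + 1, par, fun a => C (Function.invFun num a), h3, ?_, ?_, fun a _ => hw _⟩
  · intro e
    obtain ⟨i, hi1, hi2⟩ := he e
    refine ⟨num i, h2 i, ?_⟩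
    change src e ∈ C (Function.invFun num (num i)) ∧ dst e ∈ C (Function.invFun num (num i))
    rw [hinv i]
    exact ⟨hi1, hi2⟩
  · intro a b v hba ha hva hvb
    obtain ⟨i, rfl⟩ := hsurj a ha
    obtain ⟨j, rfl⟩ := hsurj b (by omega)
    change v ∈ C (Function.invFun num (num i)) at hva
    change v ∈ C (Function.invFun num (num j)) at hvb
    change v ∈ C (Function.invFun num (par (num i)))
    rw [hinv] at hva hvb
    obtain ⟨k, hk, hk2⟩ := h4 i j v hba hva hvb
    rw [← hk, hinv]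
    exact hk2

end Pool.Agent.L0h65.TL
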